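import Pool.Agent.RTF.Stmts

/-!
# RTF: module CSN

A nonzero series has a nonzero coset sum for all large `j`.
-/

namespace Pool.Agent.RTF.H83

open Pool.Agent.CD

variable {G : Type} [Group G]

theorem cs_eq_of_unique (F : SF G) (B : Subgroup G) (u : F.U) (g : G)
    (h : ∀ x, g⁻¹ * x ∈ B → F.co u x ≠ 0 → x = g) : cs F B u g = F.co u g := by
  classical
  unfold cs
  rw [finsum_eq_single _ g]
  · rw [finsum_eq_if, if_pos]
    change g⁻¹ * g ∈ B
    rw [inv_mul_cancel]
    exact B.one_mem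
  · intro x hx
    rw [finsum_eq_if]
    split_ifs with hxB
    · by_contra hne
      exact hx (h x hxB hne)
    · rfl

theorem ord_conv (T : CF G) (F : SF G) (hF : F.o = T.ord ∨ F.o = T.ord.rev) (j : ℕ) :
    F.o.Conv (T.M j) := by
  rcases hF with h | h
  · rw [h]
    exact T.conv j
  · rw [h]
    exact T.conv_rev j

theorem not_mem_of_ne_one (T : CF G) {a : G} (ha : a ≠ 1) : ∃ l, ∀ i, l ≤ i → a ∉ T.M i := by
  obtain ⟨l, -, hl⟩ := T.exists_level ha
  exact ⟨l + 1, fun i hi h => hl (T.chi_of_lt hi h)⟩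

/-- A nonempty subset of the support of a series has a least element. -/
theorem exists_least (F : SF G) (u : F.U) (S : Set G) (hS : S ⊆ Function.support (F.co u))
    (hne : S.Nonempty) : ∃ g ∈ S, ∀ x ∈ S, x ≠ g → F.o.lt g x := by
  have hwf : WellFounded (fun a b : G => F.o.lt a b ∧ a ∈ S ∧ b ∈ S) :=
    Set.wellFoundedOn_iff.1 ((F.wo u).subset hS)
  obtain ⟨g, hg, hmin⟩ := hwf.has_min S hne
  refine ⟨g, hg, fun x hx hxg => ?_⟩
  have h1 : ¬ F.o.lt x g := fun h => hmin x hx ⟨h, hx, hg⟩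
  have h2 : g⁻¹ * x ≠ 1 := fun h => hxg (by
    rw [← mul_one g, ← h, mul_inv_cancel_left])
  rcases F.o.tot h2 with h3 | h3
  · exact h3
  · exfalso
    apply h1
    unfold BiOrd.lt
    rwa [mul_inv_rev, inv_inv] at h3

theorem csn : CsnStmt := by
  intro G _ T F hF j u _ hu
  have hSne : (Function.support (F.co u)).Nonempty := by
    rw [Function.support_nonempty_iff]
    intro h
    exact hu (F.co_inj (by rw [h, map_zero]))
  obtain ⟨g, hg, hgl⟩ := exists_least F u _ le_rfl hSne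
  have key : ∃ l, ∀ i, l ≤ i → ∀ x, g⁻¹ * x ∈ T.M i → F.co u x ≠ 0 → x = g := by
    by_cases hne : (Function.support (F.co u) \ {g}).Nonempty
    · obtain ⟨b, hb, hbl⟩ := exists_least F u _ Set.sdiff_subset hne
      have hgb : F.o.lt g b := hgl b hb.1 hb.2
      have hb1 : g⁻¹ * b ≠ 1 := fun h => F.o.one (by
        have := hgb
        unfold BiOrd.lt at this
        rwa [h] at this)
      obtain ⟨l, hl⟩ := not_mem_of_ne_one T hb1
      refine ⟨l, fun i hi x hx hxu => ?_⟩
      by_contra hxg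
      apply hl i hi
      by_cases hxb : x = b
      · rwa [← hxb]
      · refine ord_conv T F hF i (g⁻¹ * b) (g⁻¹ * x) hgb ?_ hx
        have h1 := hbl x ⟨hxu, hxg⟩ hxb
        unfold BiOrd.lt at h1 ⊢
        have e : (g⁻¹ * b)⁻¹ * (g⁻¹ * x) = b⁻¹ * x := by group
        rwa [e]
    · refine ⟨0, fun i _ x _ hxu => ?_⟩
      by_contra hxg
      exact hne ⟨x, hxu, hxg⟩
  obtain ⟨l, hl⟩ := key
  refine ⟨max j l, le_max_left _ _, fun i hi hcz => ?_⟩
  have h1 := hcz g
  rw [cs_eq_of_unique F (T.M i) u g (hl i (le_trans (le_max_right _ _) hi))] at h1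
  exact hg h1

end Pool.Agent.RTF.H83
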