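import Pool.Agent.RTF.Stmts

/-!
# RTF: module FOL

Foelner tiles.
-/

namespace Pool.Agent.RTF.H83

open Pool.Agent.CD

variable {G : Type} [Group G]

theorem chi_pow (T : CF G) (j : ℕ) {a : G} (h : a ∈ T.M j) (k : ℕ) :
    T.chi j (a ^ k) = k * T.chi j a := by
  induction k with
  | zero => simp [T.chi_one]
  | succ k ih =>
    rw [pow_succ, T.mul j _ _ ((T.M j).pow_mem h k) h, ih]
    push_cast
    ring

theorem chi_zpow (T : CF G) (j : ℕ) {a : G} (h : a ∈ T.M j) (k : ℤ) :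
    T.chi j (a ^ k) = k * T.chi j a := by
  obtain ⟨n, rfl | rfl⟩ := k.eq_nat_or_neg
  · rw [zpow_natCast, chi_pow T j h]
  · rw [zpow_neg, zpow_natCast, T.chi_inv j ((T.M j).pow_mem h n), chi_pow T j h]
    ring

/-- A subgroup of `M j` has cyclic image under the character. -/
theorem exists_gen (T : CF G) (j : ℕ) (N : Subgroup G) (hN : N ≤ T.M j) :
    ∃ t ∈ N, 0 ≤ T.chi j t ∧ ∀ x ∈ N, T.chi j t ∣ T.chi j x := by
  let A : AddSubgroup ℤ :=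
    { carrier := {n | ∃ x ∈ N, T.chi j x = n}
      zero_mem' := ⟨1, N.one_mem, T.chi_one j⟩
      add_mem' := by
        rintro _ _ ⟨x, hx, rfl⟩ ⟨y, hy, rfl⟩
        exact ⟨x * y, N.mul_mem hx hy, T.mul j x y (hN hx) (hN hy)⟩
      neg_mem' := by
        rintro _ ⟨x, hx, rfl⟩
        exact ⟨x⁻¹, N.inv_mem hx, T.chi_inv j (hN hx)⟩ }
  obtain ⟨a, ha⟩ := Int.subgroup_cyclic A
  have h1 : a ∈ A := by
    rw [ha]
    exact AddSubgroup.subset_closure rfl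
  obtain ⟨t, ht, hta⟩ := h1
  have h2 : ∀ x ∈ N, a ∣ T.chi j x := by
    intro x hx
    have : T.chi j x ∈ A := ⟨x, hx, rfl⟩
    rw [ha, AddSubgroup.mem_closure_singleton] at this
    obtain ⟨n, hn⟩ := this
    rw [← hn, zsmul_eq_mul]
    exact Dvd.intro_left _ rfl
  rcases le_total 0 a with h | h
  · refine ⟨t, ht, by rw [hta]; exact h, fun x hx => ?_⟩
    rw [hta]
    exact h2 x hx
  · refine ⟨t⁻¹, N.inv_mem ht, ?_, fun x hx => ?_⟩
    · rw [T.chi_inv j (hN ht), hta]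
      linarith
    · rw [T.chi_inv j (hN ht), hta]
      exact (neg_dvd).2 (h2 x hx)

/-- The tiles at level `j`. -/
def Til (T : CF G) (j : ℕ) (E : Finset G) (ε : ℝ) : Prop :=
  ∃ (B B0 : Finset G) (K1 : Subgroup G), B.Nonempty ∧ B0 ⊆ B ∧
    ((B.card : ℝ) - B0.card ≤ ε * B.card) ∧
    (∀ b ∈ B0, ∀ e ∈ E, ∃ b' ∈ B, b'⁻¹ * (b * e) ∈ T.M j) ∧
    (∀ b ∈ B, ∀ b' ∈ B, b⁻¹ * b' ∈ T.M j → b = b') ∧
    K1.Normal ∧ K1.FiniteIndex ∧ T.M j ≤ K1 ∧
    ∀ K : Subgroup G, K.Normal → K.FiniteIndex → T.M j ≤ K → K ≤ K1 →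
      ∃ H : Finset G, (∀ g : G, ∃ h ∈ H, ∃ b ∈ B, (h * b)⁻¹ * g ∈ K) ∧
        ∀ h ∈ H, ∀ b ∈ B, ∀ h' ∈ H, ∀ b' ∈ B, (h * b)⁻¹ * (h' * b') ∈ K → h = h' ∧ b = b'

theorem til_zero (T : CF G) (E : Finset G) (ε : ℝ) (hε : 0 < ε) : Til T 0 E ε := by
  refine ⟨{1}, {1}, ⊤, Finset.singleton_nonempty _, Finset.Subset.refl _, ?_, ?_, ?_, inferInstance,
    inferInstance, le_top, ?_⟩
  · simp only [Finset.card_singleton, Nat.cast_one, sub_self, mul_one]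
    exact hε.le
  · intro b _ e _
    refine ⟨1, Finset.mem_singleton_self _, ?_⟩
    rw [T.top]
    exact Subgroup.mem_top _
  · intro b hb b' hb' _
    rw [Finset.mem_singleton] at hb hb'
    rw [hb, hb']
  · intro K _ _ hK _
    refine ⟨{1}, fun g => ⟨1, Finset.mem_singleton_self _, 1, Finset.mem_singleton_self _, ?_⟩, ?_⟩
    · apply hK
      rw [T.top]
      exact Subgroup.mem_top _
    · intro h hh b hb h' hh' b' hb' _
      rw [Finset.mem_singleton] at hh hb hh' hb'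
      rw [hh, hb, hh', hb']
      exact ⟨rfl, rfl⟩

/-- The common constant for the translations. -/
theorem exists_bound (T : CF G) (j : ℕ) (a : ℤ) (B B0 E : Finset G)
    (ha : ∀ x ∈ T.M j, a ∣ T.chi j x)
    (hE : ∀ b ∈ B0, ∀ e ∈ E, ∃ b' ∈ B, b'⁻¹ * (b * e) ∈ T.M j) :
    ∃ C : ℕ, ∀ b ∈ B0, ∀ e ∈ E, ∃ b' ∈ B, ∃ c : ℤ, |c| ≤ C ∧ b'⁻¹ * (b * e) ∈ T.M j ∧
      T.chi j (b'⁻¹ * (b * e)) = a * c := by
  have h1 : ∀ p ∈ B0 ×ˢ E, ∃ n : ℕ, ∃ b' ∈ B, ∃ c : ℤ, |c| ≤ n ∧ b'⁻¹ * (p.1 * p.2) ∈ T.M j ∧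
      T.chi j (b'⁻¹ * (p.1 * p.2)) = a * c := by
    rintro ⟨b, e⟩ hp
    rw [Finset.mem_product] at hp
    obtain ⟨b', hb', h⟩ := hE b hp.1 e hp.2
    obtain ⟨c, hc⟩ := ha _ h
    exact ⟨c.natAbs, b', hb', c, (Int.natCast_natAbs c).symm.le, h, hc⟩
  choose! n hn using h1
  refine ⟨(B0 ×ˢ E).sup n, fun b hb e he => ?_⟩
  have hp : (b, e) ∈ B0 ×ˢ E := Finset.mem_product.2 ⟨hb, he⟩
  obtain ⟨b', hb', c, hc, h2, h3⟩ := hn (b, e) hp
  refine ⟨b', hb', c, le_trans hc ?_, h2, h3⟩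
  exact_mod_cast Finset.le_sup hp

theorem exists_length (C : ℕ) (ε : ℝ) (hε : 0 < ε) :
    ∃ L : ℕ, 0 < L ∧ 2 * C ≤ L ∧ (2 * C : ℝ) ≤ ε / 2 * L := by
  obtain ⟨n, hn⟩ := exists_nat_ge ((2 * C : ℝ) / (ε / 2))
  refine ⟨max n (2 * C + 1), ?_, ?_, ?_⟩
  · exact lt_of_lt_of_le (by omega) (le_max_right _ _)
  · exact le_trans (by omega) (le_max_right _ _)
  · rw [div_le_iff₀ (half_pos hε)] at hn
    have h1 : (n : ℝ) ≤ ((max n (2 * C + 1) : ℕ) : ℝ) := by exact_mod_cast le_max_left _ _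
    have h2 : (n : ℝ) * (ε / 2) ≤ ((max n (2 * C + 1) : ℕ) : ℝ) * (ε / 2) :=
      mul_le_mul_of_nonneg_right h1 (half_pos hε).le
    linarith

open Classical in
/-- The set of the products of elements of `B` and powers of `t`. -/
noncomputable def box (B : Finset G) (t : G) (I : Finset ℕ) : Finset G :=
  (B ×ˢ I).image fun p => p.1 * t ^ p.2

theorem mem_box {B : Finset G} {t : G} {I : Finset ℕ} {x : G} :
    x ∈ box B t I ↔ ∃ b ∈ B, ∃ i ∈ I, b * t ^ i = x := by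
  classical
  unfold box
  rw [Finset.mem_image]
  constructor
  · rintro ⟨⟨b, i⟩, h, rfl⟩
    rw [Finset.mem_product] at h
    exact ⟨b, h.1, i, h.2, rfl⟩
  · rintro ⟨b, hb, i, hi, rfl⟩
    exact ⟨(b, i), Finset.mem_product.2 ⟨hb, hi⟩, rfl⟩

/-- Two products that agree modulo `M (j + 1)` are equal. -/
theorem box_inj (T : CF G) (j : ℕ) (B : Finset G) {t : G} (ht : t ∈ T.M j) (hta : T.chi j t ≠ 0)
    (hinj : ∀ b ∈ B, ∀ b' ∈ B, b⁻¹ * b' ∈ T.M j → b = b') {b b' : G} (hb : b ∈ B) (hb' : b' ∈ B)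
    {i i' : ℕ} (h : (b * t ^ i)⁻¹ * (b' * t ^ i') ∈ T.M (j + 1)) : b = b' ∧ i = i' := by
  have h1 : (b * t ^ i)⁻¹ * (b' * t ^ i') ∈ T.M j := T.mono_succ j h
  have h2 : b⁻¹ * b' ∈ T.M j := by
    have e : b⁻¹ * b' = t ^ i * ((b * t ^ i)⁻¹ * (b' * t ^ i')) * (t ^ i')⁻¹ := by group
    rw [e]
    exact (T.M j).mul_mem ((T.M j).mul_mem ((T.M j).pow_mem ht i) h1)
      ((T.M j).inv_mem ((T.M j).pow_mem ht i'))
  have hbb := hinj b hb b' hb' h2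
  subst hbb
  refine ⟨rfl, ?_⟩
  have e : (b * t ^ i)⁻¹ * (b * t ^ i') = (t ^ i)⁻¹ * t ^ i' := by group
  rw [e, T.succ, T.mul j _ _ ((T.M j).inv_mem ((T.M j).pow_mem ht i)) ((T.M j).pow_mem ht i'),
    T.chi_inv j ((T.M j).pow_mem ht i), chi_pow T j ht, chi_pow T j ht] at h
  have h3 : ((i' : ℤ) - i) * T.chi j t = 0 := by linear_combination h.2
  rcases mul_eq_zero.1 h3 with h4 | h4
  · omega
  · exact absurd h4 hta

theorem card_box (T : CF G) (j : ℕ) (B : Finset G) {t : G} (ht : t ∈ T.M j) (hta : T.chi j t ≠ 0)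
    (hinj : ∀ b ∈ B, ∀ b' ∈ B, b⁻¹ * b' ∈ T.M j → b = b') (I : Finset ℕ) :
    (box B t I).card = B.card * I.card := by
  classical
  unfold box
  rw [Finset.card_image_of_injOn, Finset.card_product]
  rintro ⟨b, i⟩ h ⟨b', i'⟩ h' heq
  rw [Finset.mem_coe, Finset.mem_product] at h h'
  simp only at heq h h'
  have h1 : (b * t ^ i)⁻¹ * (b' * t ^ i') ∈ T.M (j + 1) := by
    rw [← heq, inv_mul_cancel]
    exact (T.M (j + 1)).one_mem
  obtain ⟨h2, h3⟩ := box_inj T j B ht hta hinj h.1 h'.1 h1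
  rw [h2, h3]

/-- The membership in a normal subgroup of finite index of elements of `M j`. -/
theorem exists_modulus (T : CF G) (j : ℕ) {t : G} (ht : t ∈ T.M j) (ha : 0 < T.chi j t)
    (_hta : ∀ x ∈ T.M j, T.chi j t ∣ T.chi j x) (L : ℕ) (hL : 0 < L) (K : Subgroup G)
    (_hn : K.Normal) (hfi : K.FiniteIndex) (hle : T.M (j + 1) ≤ K)
    (hd : ∀ a ∈ K, a ∈ T.M j → (((T.chi j t).toNat * L : ℕ) : ℤ) ∣ T.chi j a) :
    ∃ m : ℕ, 0 < m ∧ ∀ x ∈ T.M j, (x ∈ K ↔ T.chi j t * ((L * m : ℕ) : ℤ) ∣ T.chi j x) := by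
  obtain ⟨s, hs, hs0, hsd⟩ := exists_gen T j (K ⊓ T.M j) inf_le_right
  rw [Subgroup.mem_inf] at hs
  have h1 := hd s hs.1 hs.2
  obtain ⟨m, hm⟩ := h1
  have hcast : (((T.chi j t).toNat * L : ℕ) : ℤ) = T.chi j t * L := by
    push_cast
    rw [Int.toNat_of_nonneg ha.le]
  rw [hcast] at hm
  have hspos : T.chi j s ≠ 0 := by
    intro h0
    obtain ⟨k, hk0, -, hk⟩ := Subgroup.exists_pow_mem_of_index_ne_zero hfi.index_ne_zero t
    have h2 := hsd (t ^ k) (Subgroup.mem_inf.2 ⟨hk, (T.M j).pow_mem ht k⟩)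
    rw [h0, zero_dvd_iff, chi_pow T j ht] at h2
    rcases mul_eq_zero.1 h2 with h3 | h3
    · have : k = 0 := by exact_mod_cast h3
      omega
    · exact ha.ne' h3
  have hmpos : 0 < m := by
    have h2 : 0 < T.chi j s := lt_of_le_of_ne hs0 (Ne.symm hspos)
    rw [hm] at h2
    have h3 : 0 < T.chi j t * (L : ℤ) := mul_pos ha (by exact_mod_cast hL)
    exact pos_of_mul_pos_right h2 h3.le
  obtain ⟨m', rfl⟩ := Int.eq_ofNat_of_zero_le hmpos.le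
  have e : T.chi j t * ((L * m' : ℕ) : ℤ) = T.chi j s := by
    rw [hm]
    push_cast
    ring
  refine ⟨m', by exact_mod_cast hmpos, fun x hx => ?_⟩
  rw [e]
  constructor
  · intro hxK
    exact hsd x (Subgroup.mem_inf.2 ⟨hxK, hx⟩)
  · rintro ⟨q, hq⟩
    have h3 : x * (s ^ q)⁻¹ ∈ T.M (j + 1) := by
      rw [T.succ]
      refine ⟨(T.M j).mul_mem hx ((T.M j).inv_mem ((T.M j).zpow_mem hs.2 q)), ?_⟩
      rw [T.mul j _ _ hx ((T.M j).inv_mem ((T.M j).zpow_mem hs.2 q)),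
        T.chi_inv j ((T.M j).zpow_mem hs.2 q), chi_zpow T j hs.2, hq]
      ring
    have h4 := K.mul_mem (hle h3) (K.zpow_mem hs.1 q)
    rwa [inv_mul_cancel_right] at h4

theorem mem_conj' (T : CF G) (j : ℕ) (g : G) {a : G} (ha : a ∈ T.M j) : g⁻¹ * a * g ∈ T.M j := by
  have h := T.mem_conj j g⁻¹ a ha
  rwa [inv_inv] at h

theorem chi_conj' (T : CF G) (j : ℕ) (g : G) {a : G} (ha : a ∈ T.M j) :
    T.chi j (g⁻¹ * a * g) = T.chi j a := by
  have h := T.conj j g⁻¹ a ha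
  rwa [inv_inv] at h

theorem box_translate (T : CF G) (j : ℕ) {t : G} (ht : t ∈ T.M j) {B B0 E : Finset G} {C L : ℕ}
    (hC : ∀ b ∈ B0, ∀ e ∈ E, ∃ b' ∈ B, ∃ c : ℤ, |c| ≤ C ∧ b'⁻¹ * (b * e) ∈ T.M j ∧
      T.chi j (b'⁻¹ * (b * e)) = T.chi j t * c) {b : G} (hb : b ∈ B0) {e : G} (he : e ∈ E) {i : ℕ}
    (hi : C ≤ i) (hi2 : i < L - C) :
    ∃ b' ∈ B, ∃ k : ℕ, k < L ∧ (b' * t ^ k)⁻¹ * (b * t ^ i * e) ∈ T.M (j + 1) := by
  obtain ⟨b', hb', c, hc, hm, hchi⟩ := hC b hb e he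
  have hc2 := abs_le.1 hc
  have hk0 : 0 ≤ c + i := by
    have : (C : ℤ) ≤ i := by exact_mod_cast hi
    linarith [hc2.1]
  obtain ⟨k, hk⟩ := Int.eq_ofNat_of_zero_le hk0
  refine ⟨b', hb', k, by omega, ?_⟩
  have e1 : (b' * t ^ k)⁻¹ * (b * t ^ i * e) =
      (t ^ k)⁻¹ * (b'⁻¹ * (b * e)) * (e⁻¹ * t ^ i * e) := by group
  have h1 := (T.M j).inv_mem ((T.M j).pow_mem ht k)
  have h2 := (T.M j).pow_mem ht i
  have h3 := (T.M j).mul_mem h1 hm
  rw [e1, T.succ]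
  refine ⟨(T.M j).mul_mem h3 (mem_conj' T j e h2), ?_⟩
  rw [T.mul j _ _ h3 (mem_conj' T j e h2), T.mul j _ _ h1 hm, chi_conj' T j e h2,
    T.chi_inv j ((T.M j).pow_mem ht k), chi_pow T j ht, chi_pow T j ht, hchi]
  have hk' : (k : ℤ) = c + i := hk.symm
  rw [hk']
  ring

theorem card_est (a b : ℕ) (C L : ℕ) (ε : ℝ) (hab : b ≤ a) (hC : 2 * C ≤ L)
    (hε : (2 * C : ℝ) ≤ ε / 2 * L) (h : (a : ℝ) - b ≤ ε / 2 * a) :
    ((a * L : ℕ) : ℝ) - ((b * (L - C - C) : ℕ) : ℝ) ≤ ε * ((a * L : ℕ) : ℝ) := by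
  have e : ((L - C - C : ℕ) : ℝ) = (L : ℝ) - 2 * C := by
    have : L - C - C + 2 * C = L := by omega
    have h2 : ((L - C - C + 2 * C : ℕ) : ℝ) = (L : ℝ) := by rw [this]
    push_cast at h2
    linarith
  rw [Nat.cast_mul, Nat.cast_mul, e]
  have h1 : (b : ℝ) ≤ a := by exact_mod_cast hab
  have hL : (0 : ℝ) ≤ L := Nat.cast_nonneg L
  have ha : (0 : ℝ) ≤ a := Nat.cast_nonneg a
  have hb : (0 : ℝ) ≤ b := Nat.cast_nonneg b
  have hC0 : (0 : ℝ) ≤ C := Nat.cast_nonneg C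
  have h2 : ((a : ℝ) - b) * L ≤ ε / 2 * a * L := mul_le_mul_of_nonneg_right h hL
  have h3 : (b : ℝ) * (2 * C) ≤ a * (2 * C) := mul_le_mul_of_nonneg_right h1 (by positivity)
  have h4 : (a : ℝ) * (2 * C) ≤ a * (ε / 2 * L) := mul_le_mul_of_nonneg_left hε ha
  nlinarith

theorem cover_step (T : CF G) (j : ℕ) {t : G} (ht : t ∈ T.M j)
    (hta : ∀ x ∈ T.M j, T.chi j t ∣ T.chi j x) {L m : ℕ} (hL : 0 < L) (hm : 0 < m)
    (K : Subgroup G) (hMK : T.M (j + 1) ≤ K)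
    (hmK : ∀ x ∈ T.M j, (x ∈ K ↔ T.chi j t * ((L * m : ℕ) : ℤ) ∣ T.chi j x)) {g h b x k : G}
    (hx : x ∈ T.M j) (hk : k ∈ K) (hg : x * k = (h * b)⁻¹ * g) :
    ∃ l : ℕ, l < m ∧ ∃ i : ℕ, i < L ∧ (h * (t ^ L) ^ l * (b * t ^ i))⁻¹ * g ∈ K := by
  obtain ⟨s, hs⟩ := hta x hx
  have hLm : (0 : ℤ) < ((L * m : ℕ) : ℤ) := by exact_mod_cast Nat.mul_pos hL hm
  have hr0 := Int.emod_nonneg s hLm.ne'
  have hr1 := Int.emod_lt_of_pos s hLm
  obtain ⟨r, hr⟩ := Int.eq_ofNat_of_zero_le hr0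
  rw [hr] at hr1
  have hr2 : r < L * m := by exact_mod_cast hr1
  have hdvd : ((L * m : ℕ) : ℤ) ∣ s - r := by
    have h1 : s % ((L * m : ℕ) : ℤ) = (r : ℤ) := hr
    exact Int.dvd_self_sub_of_emod_eq h1
  have hpr := (T.M j).pow_mem ht r
  have hx2 : (t ^ r)⁻¹ * x ∈ K := by
    rw [hmK _ ((T.M j).mul_mem ((T.M j).inv_mem hpr) hx), T.mul j _ _ ((T.M j).inv_mem hpr) hx,
      T.chi_inv j hpr, chi_pow T j ht, hs]
    have e : -((r : ℤ) * T.chi j t) + T.chi j t * s = T.chi j t * (s - r) := by ring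
    rw [e]
    exact mul_dvd_mul_left _ hdvd
  refine ⟨r / L, Nat.div_lt_of_lt_mul hr2, r % L, Nat.mod_lt _ hL, ?_⟩
  rw [← pow_mul]
  have hpl := (T.M j).pow_mem ht (L * (r / L))
  have hpi := (T.M j).pow_mem ht (r % L)
  have hy : (t ^ (r % L))⁻¹ * (b⁻¹ * (t ^ (L * (r / L)))⁻¹ * b) * t ^ r ∈ K := by
    apply hMK
    rw [T.succ]
    have m1 := (T.M j).inv_mem hpi
    have m2 := mem_conj' T j b ((T.M j).inv_mem hpl)
    refine ⟨(T.M j).mul_mem ((T.M j).mul_mem m1 m2) hpr, ?_⟩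
    rw [T.mul j _ _ ((T.M j).mul_mem m1 m2) hpr, T.mul j _ _ m1 m2,
      chi_conj' T j b ((T.M j).inv_mem hpl), T.chi_inv j hpi, T.chi_inv j hpl, chi_pow T j ht,
      chi_pow T j ht, chi_pow T j ht]
    have h1 : ((L * (r / L) + r % L : ℕ) : ℤ) = r := by rw [Nat.div_add_mod]
    push_cast at h1 ⊢
    linear_combination (- T.chi j t) * h1
  have e2 : (h * t ^ (L * (r / L)) * (b * t ^ (r % L)))⁻¹ * g =
      (t ^ (r % L))⁻¹ * (b⁻¹ * (t ^ (L * (r / L)))⁻¹ * b) * t ^ r * ((t ^ r)⁻¹ * x) * k := by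
    have e3 : g = h * b * (x * k) := by
      rw [hg]
      group
    rw [e3]
    group
  rw [e2]
  exact K.mul_mem (K.mul_mem hy hx2) hk

theorem inj_step (T : CF G) (j : ℕ) {t : G} (ht : t ∈ T.M j) (hta : 0 < T.chi j t) {L m : ℕ}
    (K : Subgroup G)
    (hmK : ∀ x ∈ T.M j, (x ∈ K ↔ T.chi j t * ((L * m : ℕ) : ℤ) ∣ T.chi j x)) {h b : G}
    {l l' i i' : ℕ} (hl : l < m) (hl' : l' < m) (hi : i < L) (hi' : i' < L)
    (hz : (h * (t ^ L) ^ l * (b * t ^ i))⁻¹ * (h * (t ^ L) ^ l' * (b * t ^ i')) ∈ K) :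
    l = l' ∧ i = i' := by
  rw [← pow_mul, ← pow_mul] at hz
  have hpl := (T.M j).pow_mem ht (L * l)
  have hpl' := (T.M j).pow_mem ht (L * l')
  have hpi := (T.M j).pow_mem ht i
  have hpi' := (T.M j).pow_mem ht i'
  have m1 := (T.M j).inv_mem hpi
  have m0 := (T.M j).mul_mem ((T.M j).inv_mem hpl) hpl'
  have m2 := mem_conj' T j b m0
  have e : (h * t ^ (L * l) * (b * t ^ i))⁻¹ * (h * t ^ (L * l') * (b * t ^ i')) =
      (t ^ i)⁻¹ * (b⁻¹ * ((t ^ (L * l))⁻¹ * t ^ (L * l')) * b) * t ^ i' := by group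
  rw [e, hmK _ ((T.M j).mul_mem ((T.M j).mul_mem m1 m2) hpi'),
    T.mul j _ _ ((T.M j).mul_mem m1 m2) hpi', T.mul j _ _ m1 m2, chi_conj' T j b m0,
    T.mul j _ _ ((T.M j).inv_mem hpl) hpl', T.chi_inv j hpi, T.chi_inv j hpl, chi_pow T j ht,
    chi_pow T j ht, chi_pow T j ht, chi_pow T j ht] at hz
  have e2 : -((i : ℤ) * T.chi j t) + (-(((L * l : ℕ) : ℤ) * T.chi j t) +
      ((L * l' : ℕ) : ℤ) * T.chi j t) + (i' : ℤ) * T.chi j t =
      T.chi j t * (((L * l' + i' : ℕ) : ℤ) - ((L * l + i : ℕ) : ℤ)) := by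
    push_cast
    ring
  rw [e2] at hz
  have h1 := (mul_dvd_mul_iff_left hta.ne').1 hz
  have b1 : L * l + i < L * m := by nlinarith
  have b2 : L * l' + i' < L * m := by nlinarith
  have h2 : ((L * l' + i' : ℕ) : ℤ) - ((L * l + i : ℕ) : ℤ) = 0 := by
    refine Int.eq_zero_of_abs_lt_dvd h1 ?_
    rw [abs_lt]
    constructor <;> omega
  have h3 : L * l' + i' = L * l + i := by omega
  have hL : 0 < L := by omega
  have h4 : l' = l := by
    have q1 : (L * l' + i') / L = l' := by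
      rw [Nat.mul_add_div hL, Nat.div_eq_of_lt hi', add_zero]
    have q2 : (L * l + i) / L = l := by
      rw [Nat.mul_add_div hL, Nat.div_eq_of_lt hi, add_zero]
    rw [← q1, ← q2, h3]
  subst h4
  exact ⟨rfl, by omega⟩

theorem til_succ (T : CF G) (j : ℕ)
    (ih : ∀ (E : Finset G) (ε : ℝ), 0 < ε → Til T j E ε) (E : Finset G) (ε : ℝ) (hε : 0 < ε) :
    Til T (j + 1) E ε := by
  obtain ⟨t, ht, ht0, hta⟩ := exists_gen T j (T.M j) le_rfl
  rcases ht0.eq_or_lt with ht0 | ht0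
  · have e : T.M (j + 1) = T.M j := by
      refine le_antisymm (T.mono_succ j) fun x hx => ?_
      rw [T.succ]
      refine ⟨hx, ?_⟩
      have := hta x hx
      rwa [← ht0, zero_dvd_iff] at this
    have := ih E ε hε
    unfold Til at this ⊢
    rwa [e]
  · obtain ⟨B, B0, K1, hne, hsub, hcard, hE, hinj, hn, hfi, hle, hH⟩ := ih E (ε / 2) (half_pos hε)
    obtain ⟨C, hC⟩ := exists_bound T j (T.chi j t) B B0 E hta hE
    obtain ⟨L, hL, hLC, hLε⟩ := exists_length C ε hε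
    obtain ⟨K2, hn2, hfi2, hle2, hd2⟩ := T.rf j ((T.chi j t).toNat * L)
      (Nat.mul_pos (by omega) hL)
    have := hn
    have := hfi
    have := hn2
    have := hfi2
    refine ⟨box B t (Finset.range L), box B0 t (Finset.Ico C (L - C)), K1 ⊓ K2, ?_, ?_, ?_, ?_, ?_,
      inferInstance, inferInstance, le_inf (le_trans (T.mono_succ j) hle) hle2, ?_⟩
    · obtain ⟨b, hb⟩ := hne
      exact ⟨_, mem_box.2 ⟨b, hb, 0, Finset.mem_range.2 hL, rfl⟩⟩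
    · intro x hx
      obtain ⟨b, hb, i, hi, rfl⟩ := mem_box.1 hx
      rw [Finset.mem_Ico] at hi
      exact mem_box.2 ⟨b, hsub hb, i, Finset.mem_range.2 (by omega), rfl⟩
    · rw [card_box T j B ht ht0.ne' hinj,
        card_box T j B0 ht ht0.ne' (fun b hb b' hb' => hinj b (hsub hb) b' (hsub hb')),
        Finset.card_range, Nat.card_Ico]
      exact card_est _ _ C L ε (Finset.card_le_card hsub) hLC hLε hcard
    · intro x hx e he
      obtain ⟨b, hb, i, hi, rfl⟩ := mem_box.1 hx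
      rw [Finset.mem_Ico] at hi
      obtain ⟨b', hb', k, hk, h⟩ := box_translate T j ht hC hb he hi.1 hi.2
      exact ⟨_, mem_box.2 ⟨b', hb', k, Finset.mem_range.2 hk, rfl⟩, h⟩
    · intro x hx x' hx' h
      obtain ⟨b, hb, i, hi, rfl⟩ := mem_box.1 hx
      obtain ⟨b', hb', i', hi', rfl⟩ := mem_box.1 hx'
      obtain ⟨h1, h2⟩ := box_inj T j B ht ht0.ne' hinj hb hb' h
      rw [h1, h2]
    · intro K hK hKf hMK hKK
      have := hK
      have := hKf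
      have := T.normal j
      obtain ⟨m, hm, hmK⟩ := exists_modulus T j ht ht0 hta L hL K hK hKf hMK
        (fun a ha ha' => hd2 a (hKK ha).2 ha')
      obtain ⟨H, hcov, hHinj⟩ := hH (T.M j ⊔ K) inferInstance
        (Subgroup.finiteIndex_of_le (le_sup_right : K ≤ T.M j ⊔ K)) le_sup_left
        (sup_le hle (le_trans hKK inf_le_left))
      refine ⟨box H (t ^ L) (Finset.range m), ?_, ?_⟩
      · intro g
        obtain ⟨h, hh, b, hb, hg⟩ := hcov g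
        have h1 : (h * b)⁻¹ * g ∈ ((T.M j ⊔ K : Subgroup G) : Set G) := hg
        rw [Subgroup.mul_normal] at h1
        obtain ⟨x, hx, k, hk, hxk⟩ := Set.mem_mul.1 h1
        obtain ⟨l, hl, i, hi, h2⟩ := cover_step T j ht hta hL hm K hMK hmK hx hk hxk
        exact ⟨_, mem_box.2 ⟨h, hh, l, Finset.mem_range.2 hl, rfl⟩, _,
          mem_box.2 ⟨b, hb, i, Finset.mem_range.2 hi, rfl⟩, h2⟩
      · intro y hy x hx y' hy' x' hx' hz
        obtain ⟨h, hh, l, hl, rfl⟩ := mem_box.1 hy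
        obtain ⟨b, hb, i, hi, rfl⟩ := mem_box.1 hx
        obtain ⟨h', hh', l', hl', rfl⟩ := mem_box.1 hy'
        obtain ⟨b', hb', i', hi', rfl⟩ := mem_box.1 hx'
        rw [Finset.mem_range] at hl hi hl' hi'
        have h1 : (h * b)⁻¹ * (h' * b') ∈ T.M j ⊔ K := by
          have e : (h * b)⁻¹ * (h' * b') = (b⁻¹ * (t ^ L) ^ l * b * t ^ i) *
              ((h * (t ^ L) ^ l * (b * t ^ i))⁻¹ * (h' * (t ^ L) ^ l' * (b' * t ^ i'))) *
              (b'⁻¹ * (t ^ L) ^ l' * b' * t ^ i')⁻¹ := by group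
          rw [e]
          have q : ∀ (c : G) (n k : ℕ), c⁻¹ * (t ^ L) ^ n * c * t ^ k ∈ T.M j ⊔ K := fun c n k =>
            (le_sup_left : T.M j ≤ T.M j ⊔ K) ((T.M j).mul_mem
              (mem_conj' T j c ((T.M j).pow_mem ((T.M j).pow_mem ht L) n)) ((T.M j).pow_mem ht k))
          exact (T.M j ⊔ K).mul_mem ((T.M j ⊔ K).mul_mem (q b l i)
            ((le_sup_right : K ≤ T.M j ⊔ K) hz)) ((T.M j ⊔ K).inv_mem (q b' l' i'))
        obtain ⟨e1, e2⟩ := hHinj h hh b hb h' hh' b' hb' h1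
        subst e1
        subst e2
        obtain ⟨e3, e4⟩ := inj_step T j ht ht0 K hmK hl hl' hi hi' hz
        rw [e3, e4]
        exact ⟨rfl, rfl⟩

theorem til_all (T : CF G) (j : ℕ) : ∀ (E : Finset G) (ε : ℝ), 0 < ε → Til T j E ε := by
  induction j with
  | zero => exact til_zero T
  | succ j ih => exact til_succ T j ih

theorem fol : FolStmt := fun _ _ T j E ε hε => til_all T j E ε hε

end Pool.Agent.RTF.H83
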